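import Pool.Agent.H45.EG4.S
import Pool.Agent.H29.EGH.HGA

/-!
# EG4, row LNKG: the link of an ideal
-/

set_option autoImplicit false

namespace Pool.EG4

open MvPolynomial Pool.EGH
open Pool.EG3 (Cp Mo up Sg cp rk wt Cm CLm Rz MC PNMStmt PEMStmt HGMStmt)

namespace LNKG

variable {K : Type} [Field K] {N : ℕ}

theorem hc_self {d : ℕ} {f : PR K N} (hf : f ∈ fm K N d) : homogeneousComponent d f = f := by
  rw [homogeneousComponent_of_mem hf, if_pos rfl]

theorem hc_ne {d e : ℕ} {f : PR K N} (hf : f ∈ fm K N d) (h : e ≠ d) :
    homogeneousComponent e f = 0 := by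
  rw [homogeneousComponent_of_mem hf, if_neg h]

theorem mul_fm {a b : ℕ} {f g : PR K N} (hf : f ∈ fm K N a) (hg : g ∈ fm K N b) :
    f * g ∈ fm K N (a + b) :=
  (mem_homogeneousSubmodule _ _).2 (((mem_homogeneousSubmodule _ _).1 hf).mul
    ((mem_homogeneousSubmodule _ _).1 hg))

/-- the link, only the degrees up to `s` count -/
def lk (J I : Ideal (PR K N)) (s : ℕ) : Ideal (PR K N) where
  carrier := {x | ∀ y ∈ I, ∀ i j : ℕ, i + j ≤ s →
    homogeneousComponent i x * homogeneousComponent j y ∈ J}
  add_mem' := fun ha hb y hy i j hij => by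
    rw [map_add, add_mul]
    exact add_mem (ha y hy i j hij) (hb y hy i j hij)
  zero_mem' := fun y _ i j _ => by
    rw [map_zero, zero_mul]
    exact zero_mem J
  smul_mem' := fun c x hx y hy i j hij => by
    rw [smul_eq_mul]
    have hc : c = ∑ p ∈ Finset.range (c.totalDegree + 1), homogeneousComponent p c :=
      (sum_homogeneousComponent c).symm
    rw [hc, Finset.sum_mul, map_sum, Finset.sum_mul]
    refine Ideal.sum_mem _ fun p _ => ?_
    have hp : homogeneousComponent p c ∈ fm K N p := homogeneousComponent_mem p c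
    rcases Nat.lt_or_ge i p with h | h
    · rw [HGA.hc_mul_lt hp x h, zero_mul]
      exact zero_mem J
    · obtain ⟨q, rfl⟩ := Nat.exists_eq_add_of_le h
      rw [HGA.hc_mul hp, mul_assoc]
      exact J.mul_mem_left _ (hx y hy q j (by omega))

theorem finrank_range_flip {A B : Type} [AddCommGroup A] [Module K A] [AddCommGroup B]
    [Module K B] [Module.Finite K A] [Module.Finite K B] (P : A →ₗ[K] Module.Dual K B) :
    Module.finrank K (LinearMap.range P.flip) = Module.finrank K (LinearMap.range P) := by
  have h1 : P.flip = P.dualMap ∘ₗ (Module.evalEquiv K B).toLinearMap := by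
    ext b a
    simp [LinearMap.dualMap_apply]
  rw [h1, LinearMap.range_comp, LinearEquiv.range, Submodule.map_top,
    LinearMap.finrank_range_dualMap_eq_finrank_range]

end LNKG

open LNKG

/-- LNKG. -/
theorem t_lnkg (hGOR : GORGStmt) (hFIN : FINStmt) (hHGM : HGMStmt) : LNKGStmt := by
  intro K _ _ N k L J I hJ hk hJI hI s hs hf1 _
  have hHJ : Hg J := hHGM K N k L J hJ
  have hfin : ∀ i, Module.Finite K ↥(fm K N i) := fun i => hFIN K N i
  -- the functional
  obtain ⟨Λ, hΛ⟩ : ∃ Λ : PR K N →ₗ[K] K, ∀ f ∈ fm K N s, Λ f = 0 ↔ f ∈ J := by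
    set W : Submodule K ↥(fm K N s) := (J.restrictScalars K).comap (fm K N s).subtype with hW
    have h1 : Module.finrank K W = Module.finrank K ↥(J.restrictScalars K ⊓ fm K N s) := by
      rw [← Submodule.finrank_map_subtype_eq, hW, Submodule.map_comap_subtype, inf_comm]
    have h2 := Submodule.finrank_quotient_add_finrank W
    have h3 : Module.finrank K (↥(fm K N s) ⧸ W) = Module.finrank K K := by
      rw [Module.finrank_self]
      unfold hf at hf1
      omega
    obtain ⟨e⟩ := FiniteDimensional.nonempty_linearEquiv_of_finrank_eq h3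
    obtain ⟨Λ, hΛ⟩ := LinearMap.exists_extend (e.toLinearMap ∘ₗ W.mkQ)
    refine ⟨Λ, fun f hf => ?_⟩
    have h4 : Λ f = e (W.mkQ ⟨f, hf⟩) := by
      have := congrArg (fun g => g ⟨f, hf⟩) hΛ
      simpa using this
    rw [h4, e.map_eq_zero_iff, Submodule.mkQ_apply, Submodule.Quotient.mk_eq_zero, hW]
    rfl
  -- the pairing is perfect
  have hperf : ∀ u t : ℕ, t + u = s → ∀ x ∈ fm K N t, (∀ z ∈ fm K N u, Λ (x * z) = 0) → x ∈ J := by
    intro u
    induction u with
    | zero =>
      intro t ht x hx h
      have h1 := h 1 (by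
        rw [mem_homogeneousSubmodule]; exact isHomogeneous_one _ _)
      rw [mul_one] at h1
      rw [add_zero] at ht
      rw [← ht] at hΛ
      exact (hΛ x hx).1 h1
    | succ u ih =>
      intro t ht x hx h
      refine hGOR K N k L J hJ hk t (by omega) x hx fun l hl => ?_
      refine ih (1 + t) (by omega) _ (mul_fm hl hx) fun z hz => ?_
      have h2 := h (l * z) (by
        have := mul_fm hl hz
        rwa [add_comm] at this)
      rw [show l * x * z = x * (l * z) by ring]
      exact h2
  refine ⟨lk J I s, ?_, ?_, ?_⟩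
  · intro x hx d y hy i j hij
    by_cases h : i = d
    · subst h
      rw [hc_self (homogeneousComponent_mem i x)]
      exact hx y hy i j hij
    · rw [hc_ne (homogeneousComponent_mem d x) h, zero_mul]
      exact zero_mem J
  · intro x hx y _ i j _
    exact J.mul_mem_right _ (hHJ x hx i)
  · intro d hd
    have hF1 := hfin (s - d)
    have hF2 := hfin d
    have hF3 : Module.Finite K ↥(I.restrictScalars K ⊓ fm K N d) :=
      Submodule.finiteDimensional_of_le inf_le_right
    set P : ↥(fm K N (s - d)) →ₗ[K] Module.Dual K ↥(I.restrictScalars K ⊓ fm K N d) :=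
      ((LinearMap.mul K (PR K N)).compr₂ Λ).domRestrict₁₂ (fm K N (s - d))
        (I.restrictScalars K ⊓ fm K N d) with hP
    have hPa : ∀ x y, P x y = Λ ((x : PR K N) * y) := fun x y => rfl
    have hk1 : (LinearMap.ker P).map (fm K N (s - d)).subtype =
        (lk J I s).restrictScalars K ⊓ fm K N (s - d) := by
      ext x
      rw [Submodule.mem_map]
      constructor
      · rintro ⟨⟨x, hx⟩, hxk, rfl⟩
        refine ⟨fun y hy i j hij => ?_, hx⟩
        show homogeneousComponent i x * _ ∈ J
        by_cases h : i = s - d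
        · subst h
          rw [hc_self hx]
          have hyj : homogeneousComponent j y ∈ I := hI y hy j
          have hyf : homogeneousComponent j y ∈ fm K N j := homogeneousComponent_mem j y
          refine hperf (d - j) (s - d + j) (by omega) _ (mul_fm hx hyf) fun z hz => ?_
          have h5 : homogeneousComponent j y * z ∈ fm K N d := by
            have := mul_fm hyf hz
            rwa [show j + (d - j) = d by omega] at this
          rw [LinearMap.mem_ker] at hxk
          have h6 := congrArg (fun f => f ⟨homogeneousComponent j y * z,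
            ⟨I.mul_mem_right _ hyj, h5⟩⟩) hxk
          rw [hPa] at h6
          rw [mul_assoc]
          exact h6
        · rw [hc_ne hx h, zero_mul]
          exact zero_mem J
      · rintro ⟨hx1, hx2⟩
        refine ⟨⟨x, hx2⟩, ?_, rfl⟩
        rw [LinearMap.mem_ker]
        ext ⟨y, hy1, hy2⟩
        rw [hPa]
        show Λ (x * y) = 0
        have h7 := hx1 y hy1 (s - d) d (by omega)
        rw [hc_self hx2, hc_self hy2] at h7
        have h8 := mul_fm hx2 hy2
        rw [show s - d + d = s by omega] at h8
        exact (hΛ _ h8).2 h7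
    have hk2 : (LinearMap.ker P.flip).map (I.restrictScalars K ⊓ fm K N d).subtype =
        J.restrictScalars K ⊓ fm K N d := by
      ext y
      rw [Submodule.mem_map]
      constructor
      · rintro ⟨⟨y, hy1, hy2⟩, hyk, rfl⟩
        refine ⟨?_, hy2⟩
        show y ∈ J
        refine hperf (s - d) d (by omega) y hy2 fun z hz => ?_
        rw [LinearMap.mem_ker] at hyk
        have h6 := congrArg (fun f => f ⟨z, hz⟩) hyk
        rw [LinearMap.flip_apply, hPa] at h6
        rw [mul_comm]
        exact h6
      · rintro ⟨hy1, hy2⟩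
        refine ⟨⟨y, hJI hy1, hy2⟩, ?_, rfl⟩
        rw [LinearMap.mem_ker]
        ext ⟨x, hx⟩
        rw [LinearMap.flip_apply, hPa]
        show Λ (x * y) = 0
        have h8 := mul_fm hx hy2
        rw [show s - d + d = s by omega] at h8
        exact (hΛ _ h8).2 (J.mul_mem_left x hy1)
    have e1 := LinearMap.finrank_range_add_finrank_ker P
    have e2 := LinearMap.finrank_range_add_finrank_ker P.flip
    have e3 := finrank_range_flip P
    rw [← Submodule.finrank_map_subtype_eq _ (LinearMap.ker P), hk1] at e1
    rw [← Submodule.finrank_map_subtype_eq _ (LinearMap.ker P.flip), hk2] at e2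
    have e4 : Module.finrank K ↥(I.restrictScalars K ⊓ fm K N d) ≤
        Module.finrank K ↥(fm K N d) := Submodule.finrank_mono inf_le_right
    unfold hf
    omega

end Pool.EG4
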